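import Pool.Agent.Helper27_Sob.Statements

/-!
Module B8: continuous selections of finitely many affine maps are equivariant under translations
near almost every point of a two dimensional cell.
-/

set_option autoImplicit false

open Set Filter Topology Metric MeasureTheory
open scoped ENNReal NNReal

namespace Pool.Agent.Helper27Sob

namespace B8

/-- The projection onto a cell as an affine map. -/
noncomputable def projA (F : Cell) : E →ᵃ[ℝ] E where
  toFun := F.proj
  linear :=
    { toFun := fun v j => if Odd (F.q j) then v j else 0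
      map_add' := by
        intro v w
        funext j
        simp only [Pi.add_apply]
        split_ifs <;> simp
      map_smul' := by
        intro c v
        funext j
        simp only [Pi.smul_apply, smul_eq_mul, RingHom.id_apply]
        split_ifs <;> simp }
  map_vadd' := by
    intro p v
    funext j
    simp only [Cell.proj, vadd_eq_add, Pi.add_apply, LinearMap.coe_mk, AddHom.coe_mk]
    split_ifs <;> simp

theorem projA_apply (F : Cell) (x : E) : projA F x = F.proj x := rfl

theorem proj_add_dir {F : Cell} {x v : E} (hv : v ∈ F.dir) :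
    F.proj (F.proj x + v) = F.proj x + v := by
  funext j
  by_cases h : Odd (F.q j)
  · simp [Cell.proj, h]
  · have : v j = 0 := hv j h
    simp [Cell.proj, h, this]

theorem proj_proj (F : Cell) (x : E) : F.proj (F.proj x) = F.proj x := by
  have := proj_add_dir (F := F) (x := x) (v := 0) (Submodule.zero_mem _)
  simpa using this

end B8

open B8 in
theorem b8 : B8Statement := by
  intro F Y U hU hY hsel
  choose! r hr A hA using hsel
  obtain ⟨t, htU, htc, hcov⟩ := TopologicalSpace.countable_cover_nhdsWithin (s := U)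
    (f := fun x => ball x (r x)) (fun x hx => mem_nhdsWithin_of_mem_nhds (ball_mem_nhds x (hr x hx)))
  set 𝒜 : Set (E →ᵃ[ℝ] Z × ℝ) := ⋃ x ∈ t, A x with h𝒜def
  have h𝒜 : 𝒜.Countable := htc.biUnion (fun x hx => (hA x (htU hx)).1.countable)
  have hae : ∀ L ∈ 𝒜, ∀ L' ∈ 𝒜, ∀ᵐ x : E,
      L (F.proj x) = L' (F.proj x) → ∀ y, L (F.proj y) = L' (F.proj y) := by
    intro L _ L' _
    by_cases h : ∀ y, L (F.proj y) = L' (F.proj y)
    · exact Filter.Eventually.of_forall (fun x _ => h)
    · let Φ : E →ᵃ[ℝ] Z × ℝ := (L - L').comp (projA F)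
      let s : AffineSubspace ℝ E := (AffineSubspace.mk' (0 : Z × ℝ) ⊥).comap Φ
      have hs : ∀ x, x ∈ s ↔ L (F.proj x) = L' (F.proj x) := by
        intro x
        simp only [s, AffineSubspace.mem_comap, AffineSubspace.mem_mk', vsub_eq_sub, sub_zero,
          Submodule.mem_bot]
        change (L - L') (projA F x) = 0 ↔ _
        have e : (L - L') (projA F x) = L (F.proj x) - L' (F.proj x) := rfl
        rw [e, sub_eq_zero]
      have hne : s ≠ ⊤ := by
        intro htop
        apply h
        intro y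
        rw [← hs, htop]
        exact AffineSubspace.mem_top ℝ E y
      have h0 := Measure.addHaar_affineSubspace (volume : Measure E) s hne
      rw [← compl_mem_ae_iff] at h0
      filter_upwards [h0] with x hx hx'
      exact absurd ((hs x).2 hx') hx
  have hae2 : ∀ᵐ x : E, ∀ L ∈ 𝒜, ∀ L' ∈ 𝒜,
      L (F.proj x) = L' (F.proj x) → ∀ y, L (F.proj y) = L' (F.proj y) := by
    rw [ae_ball_iff h𝒜]
    intro L hL
    rw [ae_ball_iff h𝒜]
    exact fun L' hL' => hae L hL L' hL'
  filter_upwards [hae2] with x hx hxU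
  set p := F.proj x with hp
  obtain ⟨x₀, hx₀, hpx⟩ : ∃ x₀ ∈ t, p ∈ ball x₀ (r x₀) := by simpa using hcov hxU
  have hA0 := hA x₀ (htU hx₀)
  have hsub : ∀ L ∈ A x₀, L ∈ 𝒜 := fun L hL => mem_biUnion hx₀ hL
  have hYp : ContinuousAt Y p := hY.continuousAt (hU.mem_nhds hxU)
  have hev : ∀ᶠ z in 𝓝 p, ∀ L ∈ A x₀, L p ≠ Y p → Y z ≠ L z := by
    rw [eventually_all_finite hA0.1]
    intro L _
    by_cases h : L p = Y p
    · exact Filter.Eventually.of_forall (fun z h' => absurd h h')
    · have hc : ContinuousAt (fun z => Y z - L z) p :=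
        hYp.sub (AffineMap.continuous_of_finiteDimensional L).continuousAt
      have hne : (fun z => Y z - L z) p ≠ 0 := by
        simp only [ne_eq, sub_eq_zero]
        exact fun h' => h h'.symm
      filter_upwards [hc.eventually_ne hne] with z hz _ h'
      exact hz (sub_eq_zero.2 h')
  have hev2 : ∀ᶠ z in 𝓝 p, z ∈ U ∧ z ∈ ball x₀ (r x₀) ∧
      ∀ L ∈ A x₀, L p ≠ Y p → Y z ≠ L z :=
    (hU.eventually_mem hxU).and ((isOpen_ball.eventually_mem hpx).and hev)
  obtain ⟨δ, hδ, hball⟩ := Metric.eventually_nhds_iff_ball.1 hev2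
  have hact : ∀ z ∈ ball p δ, ∃ L ∈ A x₀, L p = Y p ∧ Y z = L z := by
    intro z hz
    obtain ⟨_, h2, h3⟩ := hball z hz
    obtain ⟨L, hL, hYL⟩ := hA0.2 z h2
    refine ⟨L, hL, ?_, hYL⟩
    by_contra hne
    exact h3 L hL hne hYL
  obtain ⟨L₀, hL₀, hL₀p, _⟩ := hact p (mem_ball_self hδ)
  have hlin : ∀ L ∈ A x₀, L p = Y p → ∀ v ∈ F.dir, L.linear v = L₀.linear v := by
    intro L hL hLp v hv
    have h1 := hx L (hsub L hL) L₀ (hsub L₀ hL₀) (hLp.trans hL₀p.symm)
    have h2 := h1 (p + v)
    rw [hp, proj_add_dir hv, ← hp] at h2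
    have e1 : L (p + v) = L.linear v + L p := by
      rw [add_comm p v]
      exact L.map_vadd p v
    have e2 : L₀ (p + v) = L₀.linear v + L₀ p := by
      rw [add_comm p v]
      exact L₀.map_vadd p v
    rw [e1, e2, hLp, hL₀p] at h2
    exact add_right_cancel h2
  refine ⟨δ, hδ, LinearMap.toContinuousLinearMap L₀.linear, ?_⟩
  intro z hz τ hτ hzτ
  have hseg : ∀ s ∈ Icc (0 : ℝ) 1, z + s • τ ∈ ball p δ := by
    intro s hs
    have := (convex_ball p δ).add_smul_sub_mem hz hzτ hs
    simpa using this
  have hmaps : MapsTo (fun s : ℝ => Y (z + s • τ) - s • L₀.linear τ) (Icc 0 1)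
      ((fun L : E →ᵃ[ℝ] Z × ℝ => L z) '' A x₀) := by
    intro s hs
    obtain ⟨L, hL, hLp, hYL⟩ := hact _ (hseg s hs)
    refine ⟨L, hL, ?_⟩
    simp only
    rw [hYL]
    have e1 : L (z + s • τ) = L.linear (s • τ) + L z := by
      rw [add_comm z (s • τ)]
      exact L.map_vadd z (s • τ)
    rw [e1, map_smul, hlin L hL hLp τ hτ]
    abel
  have hcont : ContinuousOn (fun s : ℝ => Y (z + s • τ) - s • L₀.linear τ) (Icc 0 1) := by
    apply ContinuousOn.sub
    · apply hY.comp (by fun_prop)
      intro s hs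
      exact (hball _ (hseg s hs)).1
    · fun_prop
  have himg : ((fun s : ℝ => Y (z + s • τ) - s • L₀.linear τ) '' Icc 0 1).Subsingleton := by
    have hfin : ((fun s : ℝ => Y (z + s • τ) - s • L₀.linear τ) '' Icc 0 1).Finite :=
      (hA0.1.image _).subset (image_subset_iff.2 hmaps)
    have htd := hfin.countable.isTotallyDisconnected
    exact htd _ subset_rfl (isPreconnected_Icc.image _ hcont)
  have h01 := himg (mem_image_of_mem _ (left_mem_Icc.2 zero_le_one))
    (mem_image_of_mem _ (right_mem_Icc.2 zero_le_one))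
  simp only [zero_smul, add_zero, sub_zero, one_smul] at h01
  rw [h01, LinearMap.coe_toContinuousLinearMap']
  abel

end Pool.Agent.Helper27Sob
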