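import Pool.Agent.Helper27_Sob.Basic
import Pool.Agent.Helper27_Sob.Sobolev

/-!
M1: a map whose weak Jacobian takes both signs (on sets of positive measure) in a preconnected
open set is not a `W^{1,2}` limit of diffeomorphisms.
-/

set_option autoImplicit false

open Set Filter Topology Metric MeasureTheory
open scoped ENNReal NNReal

namespace Pool.Agent.Helper27Sob

/-- Weak derivatives in `L²` are unique a.e. -/
theorem weakDeriv_ae_eq {n : ℕ} {Ω : Set (Rn n)} (hΩ : IsOpen Ω) {f : Rn n → Rn n}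
    {g g' : Rn n → Rn n →L[ℝ] Rn n} (hg : MemLp g 2 (volume.restrict Ω))
    (hg' : MemLp g' 2 (volume.restrict Ω)) (h : IsWeakDeriv Ω f g) (h' : IsWeakDeriv Ω f g') :
    ∀ᵐ x ∂(volume.restrict Ω), g x = g' x := by
  have hloc : ∀ {k : Rn n → Rn n →L[ℝ] Rn n}, MemLp k 2 (volume.restrict Ω) →
      LocallyIntegrable k (volume.restrict Ω) := fun hk =>
    hk.locallyIntegrable (by norm_num)
  have hsub : LocallyIntegrableOn (fun x => g x - g' x) Ω volume :=
    locallyIntegrableOn_of_locallyIntegrable_restrict ((hloc hg).sub (hloc hg'))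
  have key := hΩ.ae_eq_zero_of_integral_contDiff_smul_eq_zero hsub ?_
  · rw [ae_restrict_iff' hΩ.measurableSet]
    filter_upwards [key] with x hx hxΩ
    exact sub_eq_zero.1 (hx hxΩ)
  · intro φ hφ hφc hφs
    rw [← setIntegral_eq_integral_of_forall_compl_eq_zero (s := Ω) (fun x hx => ?_)]
    · have hi : Integrable (fun x => φ x • g x) (volume.restrict Ω) :=
        (hloc hg).integrable_smul_left_of_hasCompactSupport hφ.continuous hφc
      have hi' : Integrable (fun x => φ x • g' x) (volume.restrict Ω) :=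
        (hloc hg').integrable_smul_left_of_hasCompactSupport hφ.continuous hφc
      simp only [smul_sub]
      rw [integral_sub hi hi', sub_eq_zero]
      refine ContinuousLinearMap.ext fun v => ?_
      rw [ContinuousLinearMap.integral_apply hi, ContinuousLinearMap.integral_apply hi']
      have h1 := h φ hφ hφc hφs v
      have h2 := h' φ hφ hφc hφs v
      have h3 := neg_injective (h1.symm.trans h2)
      simpa using h3
    · have : φ x = 0 := image_eq_zero_of_notMem_tsupport fun hx' => hx (hφs hx')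
      simp [this]

/-- A nonvanishing continuous function on a preconnected set has constant sign. -/
theorem pos_or_neg_of_preconnected {X : Type*} [TopologicalSpace X] {Ω : Set X}
    (hΩ : IsPreconnected Ω) {d : X → ℝ} (hd : ContinuousOn d Ω) (hne : ∀ x ∈ Ω, d x ≠ 0) :
    (∀ x ∈ Ω, 0 < d x) ∨ ∀ x ∈ Ω, d x < 0 := by
  by_contra hcon
  push_neg at hcon
  obtain ⟨⟨x, hx, hx0⟩, y, hy, hy0⟩ := hcon
  obtain ⟨z, hz, hz0⟩ := hΩ.intermediate_value hx hy hd ⟨hx0, hy0⟩
  exact hne z hz hz0

theorem m1 : M1Statement := by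
  intro n Ω f g hΩ hconn hW A B hA hB hA0 hB0 hApos hBneg happ
  obtain ⟨g', hW', F, hF, -, hlim⟩ := happ
  have hae := weakDeriv_ae_eq hΩ hW.g_mem hW'.g_mem hW.weak hW'.weak
  have hmeas : TendstoInMeasure (volume.restrict Ω) (fun k => fderiv ℝ (F k)) atTop g' :=
    tendstoInMeasure_of_tendsto_eLpNorm (p := 2) (by norm_num)
      (fun k => (measurable_fderiv ℝ (F k)).aestronglyMeasurable) hW'.g_mem.1 hlim
  obtain ⟨ns, -, hns⟩ := hmeas.exists_seq_tendsto_ae
  have hsign : ∀ k, (∀ x ∈ Ω, 0 < (fderiv ℝ (F k) x).det) ∨ ∀ x ∈ Ω, (fderiv ℝ (F k) x).det < 0 := by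
    intro k
    refine pos_or_neg_of_preconnected hconn ?_ (hF k).2.2
    refine ContinuousLinearMap.continuous_det.comp_continuousOn ?_
    exact (hF k).1.continuousOn_fderiv_of_isOpen hΩ (by simp)
  have hconv : ∀ᵐ x ∂volume, x ∈ Ω → g x = g' x ∧
      Tendsto (fun i => (fderiv ℝ (F (ns i)) x).det) atTop (𝓝 (g' x).det) := by
    have h1 := (ae_restrict_iff' hΩ.measurableSet).1 hae
    have h2 := (ae_restrict_iff' hΩ.measurableSet).1 hns
    filter_upwards [h1, h2] with x hx1 hx2 hxΩ
    exact ⟨hx1 hxΩ, (ContinuousLinearMap.continuous_det.tendsto _).comp (hx2 hxΩ)⟩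
  -- frequently positive or eventually negative
  by_cases hfr : ∃ᶠ i in atTop, ∀ x ∈ Ω, 0 < (fderiv ℝ (F (ns i)) x).det
  · refine hB0 (measure_mono_null (fun x hx => ?_) (ae_iff.1 hconv))
    intro hcon
    obtain ⟨heq, ht⟩ := hcon (hB hx)
    have hlt : (g' x).det < 0 := heq ▸ hBneg x hx
    have hev := ht.eventually (gt_mem_nhds hlt)
    obtain ⟨i, hi1, hi2⟩ := (hfr.and_eventually hev).exists
    exact absurd (hi1 x (hB hx)) (not_lt.2 hi2.le)
  · rw [not_frequently] at hfr
    refine hA0 (measure_mono_null (fun x hx => ?_) (ae_iff.1 hconv))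
    intro hcon
    obtain ⟨heq, ht⟩ := hcon (hA hx)
    have hlt : 0 < (g' x).det := heq ▸ hApos x hx
    have hev := ht.eventually (lt_mem_nhds hlt)
    obtain ⟨i, hi1, hi2⟩ := (hfr.and hev).exists
    rcases hsign (ns i) with h | h
    · exact hi1 h
    · exact absurd (h x (hA hx)) (not_lt.2 hi2.le)

end Pool.Agent.Helper27Sob
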