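import Pool.Agent.Helper27_Sob.Basic
import Pool.Agent.Helper27_Sob.Sobolev

/-!
M2: a gluing criterion for `W^{1,2}`.
-/

set_option autoImplicit false

open Set Filter Topology Metric MeasureTheory
open scoped ENNReal NNReal

namespace Pool.Agent.Helper27Sob

section Rademacher

variable {E F : Type*} [NormedAddCommGroup E] [NormedSpace ℝ E] [FiniteDimensional ℝ E]
  [MeasurableSpace E] [BorelSpace E] [NormedAddCommGroup F] [NormedSpace ℝ F]
  [FiniteDimensional ℝ F] {μ : Measure E} [μ.IsAddHaarMeasure]

/-- Rademacher's theorem for locally Lipschitz maps on a set. -/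
theorem LocLip.ae_differentiableAt {f : E → F} {U : Set E} (h : LocLip f U) :
    ∀ᵐ x ∂μ, x ∈ U → DifferentiableAt ℝ f x := by
  rw [ae_iff]
  refine measure_null_of_locally_null _ fun x hx => ?_
  have hxU : x ∈ U := by
    by_contra hc
    exact hx fun h => absurd h hc
  obtain ⟨r, hr, K, hK⟩ := h x hxU
  refine ⟨{a | ¬ (a ∈ U → DifferentiableAt ℝ f a)} ∩ ball x r,
    inter_mem self_mem_nhdsWithin (mem_nhdsWithin_of_mem_nhds (ball_mem_nhds x hr)), ?_⟩
  have h1 := hK.ae_differentiableWithinAt_of_mem (μ := μ)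
  refine measure_mono_null (fun y hy => ?_) (ae_iff.1 h1)
  intro hcon
  refine hy.1 fun _ => ?_
  exact (hcon hy.2).differentiableAt (isOpen_ball.mem_nhds hy.2)

/-- The derivative of a locally Lipschitz function vanishes a.e. on its zero set. -/
theorem LocLip.ae_fderiv_eq_zero {u : E → ℝ} {U : Set E} (h : LocLip u U) :
    ∀ᵐ x ∂μ, x ∈ U → u x = 0 → fderiv ℝ u x = 0 := by
  have h1 : LocLip (fun x => |u x|) U :=
    LocLip.comp (g := fun t : ℝ => |t|) (V := univ)
      (LipschitzWith.locLip (LipschitzWith.of_dist_le' (K := 1) fun x y => by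
        rw [Real.dist_eq, Real.dist_eq, one_mul]; exact abs_abs_sub_abs_le x y) univ) h
      (fun _ _ => mem_univ _)
  filter_upwards [h.ae_differentiableAt (μ := μ), h1.ae_differentiableAt (μ := μ)] with x hx hx1
    hxU hx0
  have hd := (hx hxU).hasFDerivAt
  have hd1 := (hx1 hxU).hasFDerivAt
  have hmin : IsLocalMin (fun x => |u x|) x := by
    refine Filter.Eventually.of_forall fun y => ?_
    simp [hx0]
  have hz : fderiv ℝ (fun x => |u x|) x = 0 := hmin.fderiv_eq_zero
  rw [hz] at hd1
  have h0 : HasFDerivAt u (0 : E →L[ℝ] ℝ) x := by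
    rw [hasFDerivAt_iff_isLittleO] at hd1 ⊢
    simp only [hx0, abs_zero, sub_zero, zero_apply] at hd1 ⊢
    exact Asymptotics.isLittleO_norm_left.1 hd1
  exact hd.unique h0

end Rademacher

/-- Soft thresholding: `softT ε t = t - max (-ε) (min ε t)`. -/
noncomputable def softT (ε t : ℝ) : ℝ := t - max (-ε) (min ε t)

theorem softT_of_abs_le {ε t : ℝ} (h : |t| ≤ ε) : softT ε t = 0 := by
  unfold softT
  rw [abs_le] at h
  rw [min_eq_right h.2, max_eq_right h.1, sub_self]

theorem softT_of_lt {ε t : ℝ} (hε : 0 < ε) (h : ε < t) : softT ε t = t - ε := by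
  unfold softT
  rw [min_eq_left h.le, max_eq_right (by linarith)]

theorem softT_of_lt_neg {ε t : ℝ} (hε : 0 < ε) (h : t < -ε) : softT ε t = t + ε := by
  unfold softT
  rw [min_eq_right (by linarith), max_eq_left h.le]; ring

theorem abs_softT_sub_softT_le {ε : ℝ} (hε : 0 < ε) (s t : ℝ) :
    |softT ε s - softT ε t| ≤ |s - t| := by
  unfold softT
  rcases le_total s (-ε) with h1 | h1 <;> rcases le_total t (-ε) with h2 | h2 <;>
  rcases le_total ε s with h3 | h3 <;> rcases le_total ε t with h4 | h4 <;>
  simp only [min_eq_left, min_eq_right, max_eq_left, max_eq_right, h1, h2, h3, h4] <;>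
  (try (rw [max_eq_right (by linarith)])) <;>
  rcases abs_cases (s - t) with ⟨h, h'⟩ | ⟨h, h'⟩ <;> rw [h, abs_le] <;> constructor <;> linarith

theorem lipschitzWith_softT {ε : ℝ} (hε : 0 < ε) : LipschitzWith 1 (softT ε) := by
  refine LipschitzWith.of_dist_le_mul fun s t => ?_
  rw [Real.dist_eq, Real.dist_eq, NNReal.coe_one, one_mul]
  exact abs_softT_sub_softT_le hε s t

theorem abs_softT_sub_le {ε t : ℝ} (hε : 0 < ε) : |softT ε t - t| ≤ ε := by
  unfold softT
  rw [abs_le]
  constructor
  · have : max (-ε) (min ε t) ≤ ε := max_le (by linarith) (min_le_left _ _)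
    linarith
  · have : -ε ≤ max (-ε) (min ε t) := le_max_left _ _
    linarith

/-- The line derivative of `T ∘ u`, `T` 1-Lipschitz, is at most that of `u`. -/
theorem abs_lineDeriv_comp_le {E : Type*} [NormedAddCommGroup E] [NormedSpace ℝ E] {T : ℝ → ℝ}
    (hT : ∀ s t, |T s - T t| ≤ |s - t|) {u : E → ℝ} {x : E} (hu : DifferentiableAt ℝ u x) (v : E) :
    |lineDeriv ℝ (fun y => T (u y)) x v| ≤ |fderiv ℝ u x v| := by
  by_cases hd : LineDifferentiableAt ℝ (fun y => T (u y)) x v
  · have h1 := (hasLineDerivAt_iff_tendsto_slope_zero.1 hd.hasLineDerivAt).abs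
    have h2 := (hasLineDerivAt_iff_tendsto_slope_zero.1
      (hu.hasFDerivAt.hasLineDerivAt v)).abs
    refine le_of_tendsto_of_tendsto h1 h2 ?_
    refine Filter.Eventually.of_forall fun t => ?_
    simp only [smul_eq_mul, abs_mul]
    exact mul_le_mul_of_nonneg_left (hT _ _) (abs_nonneg _)
  · rw [lineDeriv_zero_of_not_lineDifferentiableAt hd, abs_zero]
    exact abs_nonneg _

/-- The scalar weak equation. -/
theorem weak_scalar {n : ℕ} {C : Set (Rn n)} {u : Rn n → ℝ} {r : ℝ}
    (hu : Continuous u) (hu0 : ∀ x ∈ C, u x = 0) (hL : LocLip u Cᶜ) {φ : Rn n → ℝ}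
    (hφ : ContDiff ℝ (⊤ : ℕ∞) φ) (hφc : HasCompactSupport φ) (hφs : tsupport φ ⊆ ball 0 r)
    (v : Rn n) {G : Rn n → ℝ} (hG : IntegrableOn G (ball 0 r))
    (hG0 : ∀ᵐ x ∂volume, x ∈ ball (0 : Rn n) r → x ∈ C → G x = 0)
    (hG1 : ∀ᵐ x ∂volume, x ∈ ball (0 : Rn n) r → x ∉ C → G x = fderiv ℝ u x v) :
    ∫ x in ball 0 r, fderiv ℝ φ x v * u x = - ∫ x in ball 0 r, φ x * G x := by
  -- the truncated functions are locally Lipschitz everywhere
  have hT : ∀ ε : ℝ, 0 < ε → LocLip (fun x => softT ε (u x)) univ := by
    intro ε hε x _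
    by_cases hx : x ∈ C
    · have hc : ∀ᶠ y in 𝓝 x, |u y| < ε := by
        have := (hu.abs.tendsto x)
        rw [hu0 x hx, abs_zero] at this
        exact this.eventually (gt_mem_nhds hε)
      obtain ⟨ρ, hρ, hsub⟩ := Metric.eventually_nhds_iff_ball.1 hc
      refine ⟨ρ, hρ, 0, LipschitzOnWith.of_dist_le_mul fun y hy z hz => ?_⟩
      rw [softT_of_abs_le (hsub y hy).le, softT_of_abs_le (hsub z hz).le, dist_self]
      simp
    · exact LocLip.comp (g := softT ε) (V := univ)
        (LipschitzWith.locLip (lipschitzWith_softT hε) univ) hL (fun _ _ => mem_univ _) x hx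
  -- integration by parts for the truncated functions
  have hB : IsOpen (ball (0 : Rn n) r) := isOpen_ball
  obtain ⟨D, hD⟩ := ContDiff.lipschitzWith_of_hasCompactSupport hφc hφ (by simp)
  have hint : ∀ ε : ℝ, 0 < ε → ∫ x in ball 0 r, lineDeriv ℝ (fun x => softT ε (u x)) x v * φ x =
      - ∫ x in ball 0 r, fderiv ℝ φ x v * softT ε (u x) := by
    intro ε hε
    obtain ⟨K, hK⟩ := (hT ε hε).lipschitzOn_of_isCompact (isCompact_closedBall (0 : Rn n) r)
      (subset_univ _)
    obtain ⟨w, hw, hwe⟩ := hK.extend_real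
    have h1 := hw.integral_lineDeriv_mul_eq (μ := volume) hD hφc v
    have h2 : ∫ x in ball 0 r, lineDeriv ℝ (fun x => softT ε (u x)) x v * φ x =
        ∫ x, lineDeriv ℝ w x v * φ x := by
      refine Eq.trans ?_ (setIntegral_eq_integral_of_forall_compl_eq_zero (s := ball 0 r) ?_)
      · refine setIntegral_congr_fun measurableSet_ball fun x hx => ?_
        refine congrArg (· * φ x) ?_
        refine Filter.EventuallyEq.lineDeriv_eq ?_
        filter_upwards [hB.mem_nhds hx] with y hy
        exact hwe (ball_subset_closedBall hy)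
      · intro x hx
        rw [image_eq_zero_of_notMem_tsupport fun hx' => hx (hφs hx'), mul_zero]
    have h3 : - ∫ x in ball 0 r, fderiv ℝ φ x v * softT ε (u x) =
        ∫ x, lineDeriv ℝ φ x (-v) * w x := by
      rw [← integral_neg]
      refine Eq.trans ?_ (setIntegral_eq_integral_of_forall_compl_eq_zero (s := ball 0 r) ?_)
      · refine setIntegral_congr_fun measurableSet_ball fun x hx => ?_
        rw [(hφ.differentiable (by simp)).differentiableAt.lineDeriv_eq_fderiv, map_neg, neg_mul,
          ← hwe (ball_subset_closedBall hx)]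
      · intro x hx
        have h0 : fderiv ℝ φ x = 0 := by
          refine image_eq_zero_of_notMem_tsupport fun hx' => hx (hφs ?_)
          exact tsupport_fderiv_subset ℝ hx'
        rw [(hφ.differentiable (by simp)).differentiableAt.lineDeriv_eq_fderiv, h0]
        simp
    rw [h2, h3, h1]
  -- the limit
  set ε : ℕ → ℝ := fun k => 1 / ((k : ℝ) + 1) with hε
  have hεpos : ∀ k, 0 < ε k := fun k => Nat.one_div_pos_of_nat
  have hεlim : Tendsto ε atTop (𝓝 0) := tendsto_one_div_add_atTop_nhds_zero_nat
  have hcd : Continuous fun x => fderiv ℝ φ x v :=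
    (hφ.continuous_fderiv (by simp)).clm_apply continuous_const
  have hcs : HasCompactSupport fun x => fderiv ℝ φ x v := by
    refine (hφc.fderiv ℝ).mono' ?_
    intro x hx
    refine subset_tsupport _ ?_
    intro h0
    exact hx (by simp [h0])
  obtain ⟨Cφ, hCφ⟩ := hφc.exists_bound_of_continuous hφ.continuous
  have hlimR : Tendsto (fun k => ∫ x in ball 0 r, fderiv ℝ φ x v * softT (ε k) (u x)) atTop
      (𝓝 (∫ x in ball 0 r, fderiv ℝ φ x v * u x)) := by
    refine tendsto_integral_of_dominated_convergence (fun x => |fderiv ℝ φ x v * u x|) ?_ ?_ ?_ ?_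
    · intro k
      exact (hcd.mul ((lipschitzWith_softT (hεpos k)).continuous.comp hu)).aestronglyMeasurable
    · exact ((hcd.mul hu).integrable_of_hasCompactSupport (hcs.mul_right)).abs.integrableOn
    · intro k
      refine Filter.Eventually.of_forall fun x => ?_
      rw [Real.norm_eq_abs, abs_mul, abs_mul]
      refine mul_le_mul_of_nonneg_left ?_ (abs_nonneg _)
      have := abs_softT_sub_softT_le (hεpos k) (u x) 0
      rwa [softT_of_abs_le (t := 0) (by simp [(hεpos k).le]), sub_zero, sub_zero] at this
    · refine Filter.Eventually.of_forall fun x => ?_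
      refine Tendsto.const_mul _ ?_
      rw [tendsto_iff_norm_sub_tendsto_zero]
      exact squeeze_zero (fun _ => norm_nonneg _) (fun k => abs_softT_sub_le (hεpos k)) hεlim
  have hlimL : Tendsto (fun k => ∫ x in ball 0 r,
      lineDeriv ℝ (fun x => softT (ε k) (u x)) x v * φ x) atTop
      (𝓝 (∫ x in ball 0 r, φ x * G x)) := by
    have hcomm : ∀ x, φ x * G x = G x * φ x := fun x => mul_comm _ _
    simp only [hcomm]
    have hae : ∀ᵐ x ∂(volume.restrict (ball (0 : Rn n) r)), (x ∈ C → G x = 0) ∧
        (x ∉ C → G x = fderiv ℝ u x v ∧ DifferentiableAt ℝ u x ∧ (u x = 0 → G x = 0)) := by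
      rw [ae_restrict_iff' measurableSet_ball]
      filter_upwards [hG0, hG1, hL.ae_differentiableAt (μ := volume),
        hL.ae_fderiv_eq_zero (μ := volume)] with x h0 h1 h2 h3 hx
      refine ⟨h0 hx, fun hxC => ⟨h1 hx hxC, h2 hxC, fun hux => ?_⟩⟩
      rw [h1 hx hxC, h3 hxC hux]; simp
    have hloc0 : ∀ k x, |u x| < ε k → lineDeriv ℝ (fun x => softT (ε k) (u x)) x v = 0 := by
      intro k x hx
      have : (fun x => softT (ε k) (u x)) =ᶠ[𝓝 x] fun _ => (0 : ℝ) := by
        filter_upwards [(hu.abs.tendsto x).eventually (gt_mem_nhds hx)] with y hy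
        exact softT_of_abs_le hy.le
      rw [this.lineDeriv_eq]
      simp [lineDeriv]
    refine tendsto_integral_of_dominated_convergence (fun x => |G x| * Cφ) ?_ ?_ ?_ ?_
    · intro k
      refine AEStronglyMeasurable.mul ?_ hφ.continuous.aestronglyMeasurable
      exact (measurable_lineDeriv
        ((lipschitzWith_softT (hεpos k)).continuous.comp hu)).aestronglyMeasurable
    · exact hG.abs.mul_const _
    · intro k
      filter_upwards [hae] with x hx
      rw [norm_mul]
      refine mul_le_mul ?_ (hCφ x) (norm_nonneg _) (abs_nonneg _)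
      by_cases hxC : x ∈ C
      · rw [hloc0 k x (by rw [hu0 x hxC, abs_zero]; exact hεpos k)]
        simp
      · obtain ⟨h1, h2, h3⟩ := hx.2 hxC
        rw [h1]
        exact abs_lineDeriv_comp_le (abs_softT_sub_softT_le (hεpos k)) h2 v
    · filter_upwards [hae] with x hx
      refine Tendsto.mul_const _ ?_
      by_cases hux : u x = 0
      · have hG' : G x = 0 := by
          by_cases hxC : x ∈ C
          · exact hx.1 hxC
          · exact (hx.2 hxC).2.2 hux
        rw [hG']
        refine tendsto_const_nhds.congr fun k => ?_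
        rw [hloc0 k x (by rw [hux, abs_zero]; exact hεpos k)]
      · have hxC : x ∉ C := fun hxC => hux (hu0 x hxC)
        obtain ⟨h1, h2, -⟩ := hx.2 hxC
        rw [h1, ← h2.lineDeriv_eq_fderiv]
        refine tendsto_const_nhds.congr' ?_
        filter_upwards [hεlim.eventually (gt_mem_nhds (abs_pos.2 hux))] with k hk
        have : ∃ c : ℝ, (fun x => softT (ε k) (u x)) =ᶠ[𝓝 x] fun y => u y + c := by
          rcases lt_or_gt_of_ne hux with hneg | hpos
          · rw [abs_of_neg hneg] at hk
            refine ⟨ε k, ?_⟩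
            filter_upwards [(hu.tendsto x).eventually (gt_mem_nhds (show u x < - ε k by linarith))]
              with y hy
            exact softT_of_lt_neg (hεpos k) hy
          · rw [abs_of_pos hpos] at hk
            refine ⟨-ε k, ?_⟩
            filter_upwards [(hu.tendsto x).eventually (lt_mem_nhds hk)] with y hy
            rw [softT_of_lt (hεpos k) hy]; ring
        obtain ⟨c, hc⟩ := this
        rw [hc.lineDeriv_eq]
        simp [lineDeriv]
  have h1 : ∀ k, ∫ x in ball 0 r, lineDeriv ℝ (fun x => softT (ε k) (u x)) x v * φ x =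
      - ∫ x in ball 0 r, fderiv ℝ φ x v * softT (ε k) (u x) := fun k => hint (ε k) (hεpos k)
  have h2 := tendsto_nhds_unique hlimL ((hlimR.neg).congr fun k => (h1 k).symm)
  rw [h2, neg_neg]

open Classical in
theorem m2 : M2Statement := by
  intro n C f r hC hf hfC hL hfin
  set h : Rn n → Rn n →L[ℝ] Rn n :=
    fun x => if x ∈ C then ContinuousLinearMap.id ℝ (Rn n) else fderiv ℝ f x with hh
  have hhm : Measurable h :=
    Measurable.ite hC.measurableSet measurable_const (measurable_fderiv ℝ f)
  have hfin_ball : volume (ball (0 : Rn n) r) < ⊤ := measure_ball_lt_top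
  have hfm : IsFiniteMeasure (volume.restrict (ball (0 : Rn n) r)) :=
    ⟨by rw [Measure.restrict_apply_univ]; exact hfin_ball⟩
  have h_mem : MemLp h 2 (volume.restrict (ball 0 r)) := by
    refine ⟨hhm.aestronglyMeasurable, ?_⟩
    rw [eLpNorm_lt_top_iff_lintegral_rpow_enorm_lt_top (by norm_num) (by norm_num)]
    have : (2 : ℝ≥0∞).toReal = (2 : ℕ) := by simp
    rw [this]
    simp only [ENNReal.rpow_natCast]
    rw [← lintegral_inter_add_sdiff _ (ball 0 r) hC.measurableSet]
    refine ENNReal.add_lt_top.2 ⟨?_, ?_⟩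
    · have : ∫⁻ x in ball 0 r ∩ C, ‖h x‖ₑ ^ 2 ≤ ∫⁻ x in ball (0 : Rn n) r ∩ C,
          ‖ContinuousLinearMap.id ℝ (Rn n)‖ₑ ^ 2 := by
        refine lintegral_mono_ae ?_
        rw [ae_restrict_iff' (measurableSet_ball.inter hC.measurableSet)]
        refine Filter.Eventually.of_forall fun x hx => ?_
        rw [hh]; simp only [if_pos hx.2]; exact le_refl _
      refine this.trans_lt ?_
      rw [lintegral_const]
      refine ENNReal.mul_lt_top (by finiteness) ?_
      rw [Measure.restrict_apply_univ]
      exact (measure_mono inter_subset_left).trans_lt hfin_ball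
    · refine lt_of_le_of_lt (le_of_eq ?_) hfin
      refine setLIntegral_congr_fun (measurableSet_ball.diff hC.measurableSet) fun x hx => ?_
      rw [hh]; simp only [if_neg hx.2]
  have f_mem : MemLp f 2 (volume.restrict (ball 0 r)) := by
    obtain ⟨M, hM⟩ := (isCompact_closedBall (0 : Rn n) r).exists_bound_of_continuousOn
      hf.continuousOn
    refine MemLp.of_bound hf.aestronglyMeasurable M ?_
    rw [ae_restrict_iff' measurableSet_ball]
    exact Filter.Eventually.of_forall fun x hx => hM x (ball_subset_closedBall hx)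
  refine ⟨f_mem, h_mem, ?_⟩
  have f_int : IntegrableOn f (ball 0 r) := f_mem.integrable (by norm_num)
  have h_int : IntegrableOn h (ball 0 r) := h_mem.integrable (by norm_num)
  intro φ hφ hφc hφs v
  have hcd : Continuous fun x => fderiv ℝ φ x v :=
    (hφ.continuous_fderiv (by simp)).clm_apply continuous_const
  have hcs : HasCompactSupport fun x => fderiv ℝ φ x v := by
    refine (hφc.fderiv ℝ).mono' ?_
    intro x hx
    refine subset_tsupport _ ?_
    intro h0
    exact hx (by simp [h0])
  obtain ⟨D, hD⟩ := ContDiff.lipschitzWith_of_hasCompactSupport hφc hφ (by simp)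
  have hhv : IntegrableOn (fun x => h x v) (ball 0 r) :=
    (ContinuousLinearMap.apply ℝ (Rn n) v).integrable_comp h_int
  have hI1 : IntegrableOn (fun x => fderiv ℝ φ x v • f x) (ball 0 r) :=
    ((hcd.smul hf).integrable_of_hasCompactSupport hcs.smul_right).integrableOn
  have hI2 : IntegrableOn (fun x => φ x • h x v) (ball 0 r) := by
    obtain ⟨Cφ, hCφ⟩ := hφc.exists_bound_of_continuous hφ.continuous
    exact Integrable.bdd_smul hhv Cφ hφ.continuous.aestronglyMeasurable
      (Filter.Eventually.of_forall hCφ)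
  -- coordinates
  ext i
  have e1 : (∫ x in ball 0 r, fderiv ℝ φ x v • f x) i = ∫ x in ball 0 r, fderiv ℝ φ x v * f x i := by
    have := (EuclideanSpace.proj (𝕜 := ℝ) i).integral_comp_comm hI1
    simpa using this.symm
  have e2 : (- ∫ x in ball 0 r, φ x • h x v) i = - ∫ x in ball 0 r, φ x * (h x v) i := by
    have := (EuclideanSpace.proj (𝕜 := ℝ) i).integral_comp_comm hI2
    simpa using this.symm
  rw [e1, e2]
  -- the scalar equation for `u = f_i - x_i`
  set pr : Rn n →L[ℝ] ℝ := EuclideanSpace.proj (𝕜 := ℝ) i with hpr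
  have hpl : ∀ x : Rn n, |x i| ≤ ‖x‖ := fun x => by
    simpa using PiLp.norm_apply_le x i
  have hL' : LocLip (fun x => f x i - x i) Cᶜ := by
    intro x hx
    obtain ⟨ρ, hρ, K, hK⟩ := hL x hx
    refine ⟨ρ, hρ, K + 1, LipschitzOnWith.of_dist_le_mul fun y hy z hz => ?_⟩
    have h1 := hK.dist_le_mul y hy z hz
    have h2 := hpl (f y - f z)
    have h3 := hpl (y - z)
    rw [← dist_eq_norm] at h2 h3
    rw [Real.dist_eq, NNReal.coe_add, NNReal.coe_one, add_mul, one_mul]
    have h4 : f y i - y i - (f z i - z i) = (f y - f z) i - (y - z) i := by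
      simp; ring
    rw [h4]
    exact (abs_sub _ _).trans (add_le_add (h2.trans h1) h3)
  have hG : IntegrableOn (fun x => (h x v) i - v i) (ball 0 r) :=
    Integrable.sub (pr.integrable_comp hhv) (integrable_const _)
  have key := weak_scalar (C := C) (u := fun x => f x i - x i) (r := r)
    (by fun_prop) (fun x hx => by simp [hfC x hx]) hL' hφ hφc hφs v hG ?_ ?_
  · -- the identity part
    have hid : ∫ x in ball 0 r, fderiv ℝ φ x v * x i = - ∫ x in ball 0 r, φ x * v i := by
      have hpLip : LipschitzWith 1 fun x : Rn n => x i :=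
        LipschitzWith.of_dist_le_mul fun y z => by
          rw [Real.dist_eq, NNReal.coe_one, one_mul, dist_eq_norm]
          simpa using hpl (y - z)
      have h1 := hpLip.integral_lineDeriv_mul_eq (μ := volume) hD hφc v
      have h2 : ∫ x, lineDeriv ℝ (fun x : Rn n => x i) x v * φ x = ∫ x in ball 0 r, φ x * v i := by
        refine Eq.trans ?_ (setIntegral_eq_integral_of_forall_compl_eq_zero (s := ball 0 r) ?_).symm
        · refine integral_congr_ae (Filter.Eventually.of_forall fun x => ?_)
          have : HasLineDerivAt ℝ (fun x : Rn n => x i) (v i) x v := by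
            simpa [hpr] using pr.hasFDerivAt.hasLineDerivAt (x := x) v
          simp only [this.lineDeriv]
          ring
        · intro x hx
          rw [image_eq_zero_of_notMem_tsupport fun hx' => hx (hφs hx'), zero_mul]
      have h3 : ∫ x, lineDeriv ℝ φ x (-v) * x i = - ∫ x in ball 0 r, fderiv ℝ φ x v * x i := by
        rw [← integral_neg]
        refine Eq.trans ?_ (setIntegral_eq_integral_of_forall_compl_eq_zero (s := ball 0 r) ?_).symm
        · refine integral_congr_ae (Filter.Eventually.of_forall fun x => ?_)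
          simp only
          rw [(hφ.differentiable (by simp)).differentiableAt.lineDeriv_eq_fderiv, map_neg, neg_mul]
        · intro x hx
          have h0 : fderiv ℝ φ x = 0 := by
            refine image_eq_zero_of_notMem_tsupport fun hx' => hx (hφs ?_)
            exact tsupport_fderiv_subset ℝ hx'
          rw [h0]
          simp
      rw [h2, h3] at h1
      linarith
    have a1 : IntegrableOn (fun x => fderiv ℝ φ x v * f x i) (ball 0 r) :=
      ((hcd.mul (pr.continuous.comp hf)).integrable_of_hasCompactSupport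
        hcs.mul_right).integrableOn
    have a2 : IntegrableOn (fun x : Rn n => fderiv ℝ φ x v * x i) (ball 0 r) :=
      ((hcd.mul pr.continuous).integrable_of_hasCompactSupport hcs.mul_right).integrableOn
    have a3 : IntegrableOn (fun x => φ x * (h x v) i) (ball 0 r) := by
      have := pr.integrable_comp hI2
      simp [hpr] at this
      exact this
    have a4 : IntegrableOn (fun x => φ x * v i) (ball 0 r) :=
      ((hφ.continuous.mul continuous_const).integrable_of_hasCompactSupport
        hφc.mul_right).integrableOn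
    simp only [mul_sub] at key
    rw [integral_sub a1 a2, integral_sub a3 a4, hid] at key
    linarith
  · refine Filter.Eventually.of_forall fun x _ hx => ?_
    simp [hh, hx]
  · filter_upwards [hL.ae_differentiableAt (μ := volume)] with x hx _ hxC
    have hd := hx hxC
    have : HasFDerivAt (fun x => f x i - x i) (pr.comp (fderiv ℝ f x) - pr) x := by
      exact (pr.hasFDerivAt.comp x hd.hasFDerivAt).sub pr.hasFDerivAt
    rw [this.fderiv]
    simp [hh, hxC, hpr]

end Pool.Agent.Helper27Sob
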